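import Mathlib
import Pool.Agent.H.MP_43e680_lc.A

set_option autoImplicit false

namespace Pool.Agent.Results.MP_43e680_lc.Yes

open Pool.Agent.H.MP_43e680_lc

theorem result (F : Type) [Field F] [Countable F] : nonM ≤ avec F := by
  obtain ⟨𝒜, h1, h2⟩ := ex F
  refine le_csInf ⟨_, 𝒜, h1, h2, rfl⟩ ?_
  rintro _ ⟨𝒜, h1, h2, rfl⟩
  exact main h1 h2.nontrivial

end Pool.Agent.Results.MP_43e680_lc.Yes
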